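import Pool.Agent.Helper3_PPX.Stmts

/-!
# Squad PPX, module ALG: assembly of the algebraic part
-/

set_option autoImplicit false

universe u

noncomputable section

namespace Pool.Agent.PPX.H9

open MvPolynomial Pool.Agent.PPX

section lemmas

variable {k : Type u} [Field k]

theorem mem_Td {d₁ d₂ M : ℕ} {Q : P4 k} : Q ∈ Td k d₁ d₂ M ↔
    ∀ s ∈ Q.support, s 0 ≤ d₁ ∧ s 1 ≤ d₂ ∧ s 2 + s 3 ≤ M := by
  unfold Td
  rw [mem_restrictSupport_iff]
  rfl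

theorem mem_Qd {d₁ d₂ M : ℕ} {Q : P4 k} : Q ∈ Qd k d₁ d₂ M ↔
    ∀ s ∈ Q.support, s 0 ≤ d₁ ∧ s 1 ≤ d₂ ∧ s 2 ≤ M ∧ s 3 ≤ M := by
  unfold Qd box
  rw [mem_restrictSupport_iff]
  constructor
  · intro h s hs
    have h1 : ∀ v, s v ≤ (![d₁, d₂, M, M] : Fin 4 → ℕ) v := h hs
    exact ⟨h1 0, h1 1, h1 2, h1 3⟩
  · intro h s hs v
    obtain ⟨h0, h1, h2, h3⟩ := h s hs
    fin_cases v
    · exact h0
    · exact h1
    · exact h2
    · exact h3

theorem Td_le_Qd (d₁ d₂ M : ℕ) : Td k d₁ d₂ M ≤ Qd k d₁ d₂ M := by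
  intro Q hQ
  rw [mem_Td] at hQ
  rw [mem_Qd]
  intro s hs
  obtain ⟨h0, h1, h2⟩ := hQ s hs
  exact ⟨h0, h1, by omega, by omega⟩

theorem Qd_zero_le_Td (d₁ d₂ : ℕ) : Qd k d₁ d₂ 0 ≤ Td k d₁ d₂ 0 := by
  intro Q hQ
  rw [mem_Qd] at hQ
  rw [mem_Td]
  intro s hs
  obtain ⟨h0, h1, h2, h3⟩ := hQ s hs
  exact ⟨h0, h1, by omega⟩

theorem lin_deg (a b s t : k) {d₁ d₂ M : ℕ} {Q : P4 k} (hQ : Q ∈ Td k d₁ d₂ M) :
    (lin a b s t Q).natDegree ≤ M := by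
  rw [mem_Td] at hQ
  unfold lin
  rw [aeval_def, eval₂_eq']
  apply Polynomial.natDegree_sum_le_of_forall_le
  intro e he
  obtain ⟨-, -, h2⟩ := hQ e he
  rw [Fin.prod_univ_four]
  have h3 : (Polynomial.C t - Polynomial.C s * Polynomial.X : Polynomial k).natDegree ≤ 1 := by
    refine (Polynomial.natDegree_sub_le _ _).trans ?_
    rw [Polynomial.natDegree_C]
    refine max_le (Nat.zero_le _) ?_
    refine Polynomial.natDegree_mul_le.trans ?_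
    rw [Polynomial.natDegree_C, zero_add]
    exact Polynomial.natDegree_X_le
  have e0 : (![Polynomial.C a, Polynomial.C b, Polynomial.X,
      Polynomial.C t - Polynomial.C s * Polynomial.X] : Fin 4 → Polynomial k) 0 =
      Polynomial.C a := rfl
  have e1 : (![Polynomial.C a, Polynomial.C b, Polynomial.X,
      Polynomial.C t - Polynomial.C s * Polynomial.X] : Fin 4 → Polynomial k) 1 =
      Polynomial.C b := rfl
  have e2 : (![Polynomial.C a, Polynomial.C b, Polynomial.X,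
      Polynomial.C t - Polynomial.C s * Polynomial.X] : Fin 4 → Polynomial k) 2 =
      Polynomial.X := rfl
  have e3 : (![Polynomial.C a, Polynomial.C b, Polynomial.X,
      Polynomial.C t - Polynomial.C s * Polynomial.X] : Fin 4 → Polynomial k) 3 =
      Polynomial.C t - Polynomial.C s * Polynomial.X := rfl
  rw [e0, e1, e2, e3]
  have hc : (algebraMap k (Polynomial k)) (coeff e Q) = Polynomial.C (coeff e Q) := rfl
  rw [hc, ← Polynomial.C_pow, ← Polynomial.C_pow]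
  refine Polynomial.natDegree_mul_le.trans ?_
  rw [Polynomial.natDegree_C, zero_add]
  refine Polynomial.natDegree_mul_le.trans ?_
  have h4 : ((Polynomial.C (a ^ e 0) * Polynomial.C (b ^ e 1) * Polynomial.X ^ e 2 :
      Polynomial k)).natDegree ≤ e 2 := by
    rw [← Polynomial.C_mul]
    refine Polynomial.natDegree_mul_le.trans ?_
    rw [Polynomial.natDegree_C, zero_add]
    exact Polynomial.natDegree_X_pow_le _
  have h5 : ((Polynomial.C t - Polynomial.C s * Polynomial.X : Polynomial k) ^ e 3).natDegree ≤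
      e 3 := by
    refine Polynomial.natDegree_pow_le.trans ?_
    calc e 3 * _ ≤ e 3 * 1 := Nat.mul_le_mul_left _ h3
      _ = e 3 := mul_one _
  omega

theorem big_zero {I : Ideal (Polynomial k)} (h : Big I 0) : I ≠ ⊤ := by
  intro h1
  have := h 1 (by rw [h1]; exact Submodule.mem_top) (by rw [Polynomial.natDegree_one])
  exact one_ne_zero this

/-- polynomials in `x, z` -/
theorem exists_inc {d₁ d₂ : ℕ} {Q : P4 k} (hQ : Q ∈ Qd k d₁ d₂ 0) :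
    ∃ F : MvPolynomial (Fin 2) k, inc F = Q := by
  rw [mem_Qd] at hQ
  apply exists_rename_eq_of_vars_subset_range
  · intro x y h
    fin_cases x <;> fin_cases y <;> first | rfl | (exact absurd h (by decide))
  · intro v hv
    rw [Finset.mem_coe, mem_vars_iff_mem_support] at hv
    obtain ⟨e, he, hve⟩ := hv
    obtain ⟨-, -, h2, h3⟩ := hQ e he
    rw [Finsupp.mem_support_iff] at hve
    fin_cases v
    · exact ⟨0, rfl⟩
    · exact ⟨1, rfl⟩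
    · exact absurd (Nat.le_zero.1 h2) hve
    · exact absurd (Nat.le_zero.1 h3) hve

theorem hh_plane (hbox : BoxStmt.{u}) {v : Ideal (P4 k)}
    (hv : ∀ F : MvPolynomial (Fin 2) k, inc F ∈ v → F = 0) (d₁ d₂ : ℕ) :
    (d₁ + 1) * (d₂ + 1) ≤ hh v (Qd k d₁ d₂ 0) := by
  have h1 : Module.finrank k (Qd k d₁ d₂ 0) = (d₁ + 1) * (d₂ + 1) := by
    have := (hbox.1 (k := k) ![d₁, d₂, 0, 0]).2.2
    rw [Fin.prod_univ_four] at this
    unfold Qd
    rw [this]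
    change (d₁ + 1) * (d₂ + 1) * (0 + 1) * (0 + 1) = _
    ring
  unfold hh
  have h2 : Function.Injective
      ((Ideal.Quotient.mkₐ k v).toLinearMap.domRestrict (Qd k d₁ d₂ 0)) := by
    rw [← LinearMap.ker_eq_bot, LinearMap.ker_eq_bot']
    rintro ⟨Q, hQ⟩ h
    have h3 : Q ∈ v := Ideal.Quotient.eq_zero_iff_mem.1 h
    obtain ⟨F, rfl⟩ := exists_inc hQ
    have h4 := hv F h3
    apply Subtype.ext
    change inc F = 0
    rw [h4, map_zero]
  have h3 := LinearMap.finrank_range_of_inj h2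
  rw [LinearMap.range_domRestrict] at h3
  rw [h3, h1]

theorem ncard_prod {N₁ N₂ : ℕ} (P : Fin N₁ → Fin N₂ → Prop) :
    {q : Fin N₁ × Fin N₂ | P q.1 q.2}.ncard = ∑ i, {j | P i j}.ncard := by
  classical
  have h1 : {q : Fin N₁ × Fin N₂ | P q.1 q.2}.ncard =
      (Finset.univ.filter fun q : Fin N₁ × Fin N₂ => P q.1 q.2).card := by
    rw [← Set.ncard_coe_finset]
    congr 1
    ext q
    simp
  have h2 : ∀ i, {j | P i j}.ncard = (Finset.univ.filter fun j : Fin N₂ => P i j).card := by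
    intro i
    rw [← Set.ncard_coe_finset]
    congr 1
    ext q
    simp
  rw [h1, Finset.card_filter, Fintype.sum_prod_type]
  refine Finset.sum_congr rfl fun i _ => ?_
  rw [h2, Finset.card_filter]

end lemmas

theorem adm_mono {K₀ M₀ M₀' N₁ N₂ d₁ d₂ d₂' M M' : ℕ} (h : Adm K₀ M₀ N₁ N₂ d₁ d₂ M)
    (hd : d₂' ≤ d₂) (hM : M' ≤ M) (hM₀ : M₀ ≤ M₀') : Adm K₀ M₀' N₁ N₂ d₁ d₂' M' := by
  refine ⟨le_trans ?_ h.1, hM.trans (h.2.trans hM₀)⟩
  exact Nat.mul_le_mul_left _ (Nat.add_le_add_left (Nat.mul_le_mul_right _ hd) _)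

theorem alg (hbox : BoxStmt.{u}) (hult : UltStmt.{u}) (hupp : UppStmt.{u}) (hsta : StaStmt.{u})
    (hstb : StbStmt.{u}) (hcho : ChoStmt.{u}) (hstc : StcStmt.{u}) (hstd : StdStmt.{u})
    (hnum : NumStmt) : AlgStmt.{u} := by
  obtain ⟨K, M, M₀', K₀, N₀', hK₀, hK, hM, hMM, hN⟩ := hnum ((2 * 25000 + 1) ^ 2)
  set δ : ℕ := (2 * 25000 + 1) ^ 2 with hδ
  refine ⟨K₀, max M₀' 25000, max N₀' 220, by omega, ?_⟩
  intro k _ _ N₁ N₂ a s b t hN₁ hN₂ hb hGP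
  by_contra hcon
  push Not at hcon
  have hN₁' : N₀' ≤ N₁ := (le_max_left _ _).trans hN₁
  have hN₂' : N₀' ≤ N₂ := (le_max_left _ _).trans hN₂
  have h220a : 220 ≤ N₁ := (le_max_right _ _).trans hN₁
  have h220b : 220 ≤ N₂ := (le_max_right _ _).trans hN₂
  obtain ⟨d₁, e, hadm, hprod, hN₁K, hN₂K, hfin⟩ := hN N₁ N₂ hN₁' hN₂'
  obtain ⟨v, D, hsys⟩ := hult a s b t K₀ (max M₀' 25000) hcon
  -- the first pair
  set e₁ := 9 * N₁ / 20 with he₁
  set e₂ := 9 * N₂ / 20 with he₂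
  have g1 : 9 * N₁ ≤ 20 * (e₁ + 1) := by omega
  have g2 : 9 * N₂ ≤ 20 * (e₂ + 1) := by omega
  have g3 : 20 * e₁ ≤ 9 * N₁ := by omega
  have g4 : 20 * e₂ ≤ 9 * N₂ := by omega
  have hprod5 : N₁ * N₂ ≤ 5 * ((e₁ + 1) * (e₂ + 1)) := by
    have := Nat.mul_le_mul g1 g2
    nlinarith
  have hadm5 : ∀ M', M' ≤ 25000 → Adm K₀ (max M₀' 25000) N₁ N₂ e₁ e₂ M' := by
    intro M' hM'
    refine ⟨?_, hM'.trans (le_max_right _ _)⟩
    have h1 : 20 * (e₁ * N₂ + e₂ * N₁) ≤ 18 * (N₁ * N₂) := by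
      nlinarith [Nat.mul_le_mul_right N₂ g3, Nat.mul_le_mul_right N₁ g4]
    obtain ⟨c, rfl⟩ := Nat.exists_eq_add_of_le hK₀
    have h2 : 10 + c - 1 = 9 + c := by omega
    rw [h2]
    have h3 := Nat.mul_le_mul_left (10 + c) h1
    have h4 : c * (N₁ * N₂) * 0 = 0 := by ring
    nlinarith [Nat.zero_le (c * (N₁ * N₂))]
  obtain ⟨R, hRv, hRirr, hRQ⟩ := hsta a s b t K₀ (max M₀' 25000) v D hsys 5 e₁ e₂ hprod5
    (hadm5 _ (by norm_num))
  obtain ⟨Q, hQv, hQQ, hRnQ⟩ := hstb a s b t K₀ (max M₀' 25000) v D hsys hGP (by omega) 5 e₁ e₂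
    (by norm_num) hprod5 (by omega) (by omega) (hadm5 _ (by norm_num)) R hRv hRirr hRQ
  have dR := (hbox.1 (k := k) ![e₁, e₂, 2 * 5, 2 * 5]).1 R |>.1 hRQ
  have dQ := (hbox.1 (k := k) ![e₁, e₂, 200 * 5 ^ 3, 200 * 5 ^ 3]).1 Q |>.1 hQQ
  have dR2 : degreeOf 2 R ≤ 2 * 5 := dR 2
  have dR3 : degreeOf 3 R ≤ 2 * 5 := dR 3
  have dQ2 : degreeOf 2 Q ≤ 200 * 5 ^ 3 := dQ 2
  have dQ3 : degreeOf 3 Q ≤ 200 * 5 ^ 3 := dQ 3
  obtain ⟨C, hCirr, hCvan, hC3, hCdvd⟩ := hcho v hsys.prime hsys.plane 25000 R Q hRv hQv hRirr hRnQ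
    (by omega) (by omega) (by omega) (by omega)
  -- the second pair
  have hM₁ : 200 * K ^ 3 ≤ M := by omega
  have hK3 : 2 * K ≤ 200 * K ^ 3 := by
    have : K ≤ K ^ 3 := Nat.le_self_pow (by norm_num) K
    omega
  obtain ⟨R', hRv', hRirr', hRQ'⟩ := hsta a s b t K₀ (max M₀' 25000) v D hsys K d₁ e hprod
    (adm_mono hadm (by omega) (hK3.trans hM₁) (le_max_left _ _))
  obtain ⟨Q', hQv', hQQ', hRnQ'⟩ := hstb a s b t K₀ (max M₀' 25000) v D hsys hGP (by omega) K d₁ e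
    hK hprod hN₁K hN₂K (adm_mono hadm (by omega) hM₁ (le_max_left _ _)) R' hRv' hRirr' hRQ'
  have dR' := (hbox.1 (k := k) ![d₁, e, 2 * K, 2 * K]).1 R' |>.1 hRQ'
  have dQ' := (hbox.1 (k := k) ![d₁, e, 200 * K ^ 3, 200 * K ^ 3]).1 Q' |>.1 hQQ'
  have dR1' : degreeOf 1 R' ≤ e := dR' 1
  have dR2' : degreeOf 2 R' ≤ 2 * K := dR' 2
  have dR3' : degreeOf 3 R' ≤ 2 * K := dR' 3
  have dQ1' : degreeOf 1 Q' ≤ e := dQ' 1
  have dQ2' : degreeOf 2 Q' ≤ 200 * K ^ 3 := dQ' 2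
  have dQ3' : degreeOf 3 Q' ≤ 200 * K ^ 3 := dQ' 3
  have hlow := hstc v hsys.prime hsys.plane e (200 * K ^ 3) M d₁ R' Q' C hRv' hQv' hRirr' hRnQ'
    dR1' dQ1' (dR2'.trans hK3) (dR3'.trans hK3) dQ2' dQ3' hCirr hCvan hCdvd hM
  have hup := hupp a s b t K₀ (max M₀' 25000) v D hsys d₁ (2 * e) M M (δ + 1)
    (adm_mono hadm le_rfl le_rfl (le_max_left _ _)) (Td k d₁ (2 * e) M) (Td_le_Qd _ _ _)
    (fun Q hQ i j => lin_deg _ _ _ _ hQ)
  have hS := hstd a s b t K₀ (max M₀' 25000) v D hsys hb hGP δ C hCirr hCvan hC3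
  have hpl := hupp a s b t K₀ (max M₀' 25000) v D hsys e₁ e₂ 0 0 0 (hadm5 _ (by norm_num))
    (Qd k e₁ e₂ 0) le_rfl (fun Q hQ i j => lin_deg _ _ _ _ (Qd_zero_le_Td _ _ hQ))
  have hlow2 := hh_plane hbox hsys.plane e₁ e₂
  rw [ncard_prod (fun i j => Big (D i j) (δ + 1))] at hup
  have hT : {q : Fin N₁ × Fin N₂ | Big (D q.1 q.2) 0}.ncard ≤ ∑ i, {j | D i j ≠ ⊤}.ncard := by
    rw [← ncard_prod (fun i j => D i j ≠ ⊤)]
    exact Set.ncard_le_ncard (fun q hq => big_zero hq) (Set.toFinite _)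
  refine hfin (degreeOf 1 C) (fun i => {j | Big (D i j) (δ + 1)}.ncard)
    (fun i => {j | D i j ≠ ⊤}.ncard) (fun i => (hS i).1) (fun i => ?_) (fun i => (hS i).2)
    (hlow.trans hup) ?_
  · have := Set.ncard_le_card {j : Fin N₂ | Big (D i j) (δ + 1)}
    rwa [Nat.card_eq_fintype_card, Fintype.card_fin] at this
  · omega

end Pool.Agent.PPX.H9
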